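import Pool.Agent.FS.AllOpt.Main

namespace Pool.Agent.Results.MP_63ed06_co.AllOptimal

open Pool.Agent.Lib.MP_63ed06_co

/-- For chains of subsets of `[n]` of size between `a` and `n - b` (`a, b ∈ {0, 1}`),
`a + b + d ≥ 2` and `1 ≤ d ≤ n - K √n`, every optimal `d`-intersecting family is the family of
all chains through a fixed chain `W` whose set of sizes is the allowed part of
`{0, …, i} ∪ {n - j, …, n}` with `i + j + 2 = a + b + d`. -/
theorem result : ∃ K : ℝ, ∀ a b n d : ℕ, a ≤ 1 → b ≤ 1 → 1 ≤ d → 2 ≤ a + b + d →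
    (d : ℝ) ≤ n - K * Real.sqrt n → ∀ F : Finset (Finset (Finset ℕ)), OptimalBtw n a b d F →
      ∃ (W : Finset (Finset ℕ)) (i j : ℕ), IsChainBtw n a b W ∧ i + j + 2 = a + b + d ∧
        (∀ s, (∃ A ∈ W, A.card = s) ↔ a ≤ s ∧ s + b ≤ n ∧ (s ≤ i ∨ n ≤ s + j)) ∧
        ∀ C, C ∈ F ↔ IsChainBtw n a b C ∧ W ⊆ C := by
  obtain ⟨C, hC, h⟩ := Pool.Agent.FS.AllOpt.classify
  refine ⟨10 * C, fun a b n d ha hb hd hD h1 => ?_⟩
  have h2 : (1 : ℝ) ≤ d := by exact_mod_cast hd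
  have h3 := Real.sqrt_nonneg n
  have h4 : (1 : ℝ) ≤ n := by nlinarith
  have h5 : 1 ≤ Real.sqrt n := Real.one_le_sqrt.mpr h4
  have h6 := Real.sq_sqrt (by positivity : (0 : ℝ) ≤ n)
  have h7 : d + 10 ≤ n := by
    have : (d : ℝ) + 10 ≤ n := by nlinarith
    exact_mod_cast this
  have ha' : (a : ℝ) ≤ 1 := by exact_mod_cast ha
  have hb' : (b : ℝ) ≤ 1 := by exact_mod_cast hb
  have h8 : 10 * C * Real.sqrt n ≤ n - ((a + b + d : ℕ) : ℝ) + 2 := by
    push_cast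
    linarith
  have h9 : C ^ 2 * (n + 2) ≤ ((n : ℝ) - ((a + b + d : ℕ) : ℝ) + 2) ^ 2 := by
    refine le_trans ?_ (pow_le_pow_left₀ (by positivity) h8 2)
    rw [mul_pow, h6, mul_pow]
    nlinarith [sq_nonneg C]
  exact fun F => (h a b n d ha hb hd hD (by omega) h9 F).mp

end Pool.Agent.Results.MP_63ed06_co.AllOptimal
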