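import Pool.Agent.Lib.MP_63ed06_co.Star

namespace Pool.Agent.Results.MP_63ed06_co.Disproof

open Pool.Agent.Lib.MP_63ed06_co

/-- For `2 ≤ d ≤ n`, no optimal `d`-intersecting family of chains in `[n]` consists only of chains
containing all of `X_0, …, X_{d-1}`, where `X_j = {1, …, j}`. -/
theorem result (n d : ℕ) (h2 : 2 ≤ d) (hd : d ≤ n) (F : Finset (Finset (Finset ℕ)))
    (hF : Optimal n d F) : ¬ ∀ C ∈ F, ∀ j < d, Finset.Icc 1 j ∈ C := fun h =>
  absurd (hF.2 _ (star_dint hd)) (not_le.mpr (lt_star h2 hd hF.1.1 h))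

end Pool.Agent.Results.MP_63ed06_co.Disproof
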