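import Pool.Agent.Lib.MP_63ed06_co.Frankl

namespace Pool.Agent.Results.MP_63ed06_co.NoStarNearTop

open Pool.Agent.Lib.MP_63ed06_co

/-- For chains of subsets of `[n]` of size between `a` and `n - b` (`a, b ∈ {0, 1}`), `n ≥ 100` and
`n - √n / 4 ≤ d < n - a - b`, the chains of an optimal `d`-intersecting family have fewer than `d`
sets in common. -/
theorem result (a b n d : ℕ) (ha : a ≤ 1) (hb : b ≤ 1) (hn : 100 ≤ n)
    (hd : (n : ℝ) - Real.sqrt n / 4 ≤ d) (hd' : a + b + d < n)
    (F : Finset (Finset (Finset ℕ))) (hF : OptimalBtw n a b d F)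
    (W : Finset (Finset ℕ)) (hW : ∀ C ∈ F, W ⊆ C) : W.card < d :=
  near_top ha hb hn hd hd' hF W hW

end Pool.Agent.Results.MP_63ed06_co.NoStarNearTop
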