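import Pool.Agent.Lib.MP_63ed06_co.Conv
import Pool.Agent.Lib.MP_63ed06_co.Sharp

namespace Pool.Agent.Results.MP_63ed06_co.OptimalFamily

open Pool.Agent.Lib.MP_63ed06_co

/-- For chains of subsets of `[n]` of size between `a` and `n - b` (`a, b ∈ {0, 1}`) and
`1 ≤ d ≤ n - K √n`, the family of all such chains containing `X_j` for `a ≤ j ≤ a + b + d - 2`,
and `X_n` when `b = 0`, is an optimal `d`-intersecting family. -/
theorem result : ∃ K : ℝ, ∀ a b n d : ℕ, a ≤ 1 → b ≤ 1 → 1 ≤ d →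
    (d : ℝ) ≤ n - K * Real.sqrt n → ∃ F : Finset (Finset (Finset ℕ)), OptimalBtw n a b d F ∧
      ∀ C, C ∈ F ↔ IsChainBtw n a b C ∧ (b = 0 → Finset.Icc 1 n ∈ C) ∧
        ∀ j, a ≤ j → j + 2 ≤ a + b + d → Finset.Icc 1 j ∈ C := by
  obtain ⟨C, hC, h⟩ := star_optimal_sqrt
  refine ⟨2 * C, fun a b n d ha hb hd h1 => ?_⟩
  have h2 : (1 : ℝ) ≤ d := by exact_mod_cast hd
  have h3 := Real.sqrt_nonneg n
  have h4 : (1 : ℝ) ≤ n := by nlinarith
  have h5 : 1 ≤ Real.sqrt n := Real.one_le_sqrt.mpr h4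
  have h6 := Real.sq_sqrt (by positivity : (0 : ℝ) ≤ n)
  have h7 : d + 2 ≤ n := by
    have : (d : ℝ) + 2 ≤ n := by nlinarith
    exact_mod_cast this
  have ha' : (a : ℝ) ≤ 1 := by exact_mod_cast ha
  have hb' : (b : ℝ) ≤ 1 := by exact_mod_cast hb
  have h8 : 2 * C * Real.sqrt n ≤ n - ((a + b + d : ℕ) : ℝ) + 2 := by
    push_cast
    linarith
  have h9 : C ^ 2 * (n + 2) ≤ ((n : ℝ) - ((a + b + d : ℕ) : ℝ) + 2) ^ 2 := by
    refine le_trans ?_ (pow_le_pow_left₀ (by positivity) h8 2)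
    rw [mul_pow, h6, mul_pow]
    nlinarith [sq_nonneg C]
  exact btw_optimal ha hb hd (by omega) (h n (a + b + d) (by omega) (by omega) h9)

end Pool.Agent.Results.MP_63ed06_co.OptimalFamily
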